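import Mathlib
import Pool.Agent.H250R3.Berg.Stmts

set_option autoImplicit false

/-! # Task DECOMP of the project H250-BERG, part A: the integral (helper861) -/

open MeasureTheory Set
open scoped ComplexConjugate

namespace Pool.Agent.H861R3.Berg

open Pool.Agent.H250R3.Berg

/-- second coordinate in the basis `1, ζ` -/
noncomputable def Y (ζ z : ℂ) : ℝ := z.im / ζ.im

/-- first coordinate in the basis `1, ζ` -/
noncomputable def X (ζ z : ℂ) : ℝ := z.re - Y ζ z * ζ.re

lemma pt_eq {ζ : ℂ} (h : 0 < ζ.im) (z : ℂ) : z = (X ζ z : ℂ) + (Y ζ z : ℂ) * ζ := by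
  apply Complex.ext
  · simp [X]
  · simp only [Complex.add_im, Complex.ofReal_im, Complex.mul_im, Complex.ofReal_re, Y]
    field_simp
    ring

lemma Y_pt {ζ : ℂ} (h : 0 < ζ.im) (x y : ℝ) : Y ζ ((x : ℂ) + y * ζ) = y := by
  simp only [Y, Complex.add_im, Complex.ofReal_im, Complex.mul_im, Complex.ofReal_re]
  field_simp
  ring

lemma X_pt {ζ : ℂ} (h : 0 < ζ.im) (x y : ℝ) : X ζ ((x : ℂ) + y * ζ) = x := by
  rw [X, Y_pt h]
  simp

lemma continuous_Y (ζ : ℂ) : Continuous (Y ζ) := by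
  unfold Y
  exact Complex.continuous_im.div_const _

lemma continuous_X (ζ : ℂ) : Continuous (X ζ) := by
  unfold X
  exact Complex.continuous_re.sub ((continuous_Y ζ).mul_const _)

/-- the half-open triangle -/
def T (ζ : ℂ) : Set ℂ := {z | 0 < X ζ z ∧ 0 ≤ Y ζ z ∧ X ζ z + Y ζ z < 1}

lemma measurableSet_T (ζ : ℂ) : MeasurableSet (T ζ) := by
  have h1 : MeasurableSet {z | 0 < X ζ z} := (isOpen_lt continuous_const (continuous_X ζ)).measurableSet
  have h2 : MeasurableSet {z | 0 ≤ Y ζ z} :=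
    (isClosed_le continuous_const (continuous_Y ζ)).measurableSet
  have h3 : MeasurableSet {z | X ζ z + Y ζ z < 1} :=
    (isOpen_lt ((continuous_X ζ).add (continuous_Y ζ)) continuous_const).measurableSet
  exact h1.inter (h2.inter h3)

lemma T_subset {ζ : ℂ} (h0 : 0 < ζ.im) (h1 : ‖ζ‖ = 1) : T ζ ⊆ Metric.closedBall 0 2 := by
  rintro z ⟨hx, hy, hxy⟩
  rw [mem_closedBall_zero_iff, pt_eq h0 z]
  refine (norm_add_le _ _).trans ?_
  rw [norm_mul, h1, mul_one, Complex.norm_real, Complex.norm_real, Real.norm_of_nonneg hx.le,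
    Real.norm_of_nonneg hy]
  linarith

lemma integrable_ind {ζ : ℂ} (h0 : 0 < ζ.im) (h1 : ‖ζ‖ = 1) {f : ℂ → ℂ} (hf : Continuous f) :
    Integrable ((T ζ).indicator f) := by
  rw [integrable_indicator_iff (measurableSet_T ζ)]
  exact (hf.continuousOn.integrableOn_compact (isCompact_closedBall (0 : ℂ) 2)).mono_set
    (T_subset h0 h1)

lemma mp_mul {c : ℂ} (hc : ‖c‖ = 1) : MeasurePreserving (fun z : ℂ => c * z) ∧
    MeasurableEmbedding (fun z : ℂ => c * z) := by
  have hc' : c ∈ Submonoid.unitSphere ℂ := by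
    simpa [Submonoid.unitSphere] using hc
  obtain ⟨u, rfl⟩ : ∃ u : Circle, (u : ℂ) = c := ⟨⟨c, hc'⟩, rfl⟩
  have h : (fun z : ℂ => (u : ℂ) * z) = rotation u := by
    ext z
    rw [rotation_apply]
  rw [h]
  exact ⟨LinearIsometryEquiv.measurePreserving _,
    (LinearIsometryEquiv.toHomeomorph (rotation u)).measurableEmbedding⟩

/-- the linear map `x + i y ↦ x + ζ y` -/
noncomputable def M (ζ : ℂ) : ℂ →ₗ[ℝ] ℂ where
  toFun z := (z.re : ℂ) + (z.im : ℂ) * ζ
  map_add' z w := by
    simp only [Complex.add_re, Complex.add_im, Complex.ofReal_add]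
    ring
  map_smul' r z := by
    have h1 : (r • z).re = r * z.re := by simp
    have h2 : (r • z).im = r * z.im := by simp
    rw [h1, h2]
    simp only [Complex.real_smul, RingHom.id_apply]
    push_cast
    ring

lemma det_M (ζ : ℂ) : LinearMap.det (M ζ) = ζ.im := by
  rw [← LinearMap.det_toMatrix Complex.basisOneI, Matrix.det_fin_two]
  simp [LinearMap.toMatrix_apply, M, Complex.basisOneI]

lemma integral_M {ζ : ℂ} (h0 : 0 < ζ.im) (g : ℂ → ℂ) :
    ∫ z, g z = (ζ.im : ℂ) * ∫ w, g (M ζ w) := by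
  have hd : LinearMap.det (M ζ) ≠ 0 := by rw [det_M]; exact h0.ne'
  have h := Measure.map_linearMap_addHaar_eq_smul_addHaar (volume : Measure ℂ) hd
  have hme : MeasurableEmbedding (M ζ) := by
    have hu : IsUnit (LinearMap.det (M ζ)) := isUnit_iff_ne_zero.2 hd
    let e := (LinearEquiv.ofIsUnitDet (f := M ζ) (v := Complex.basisOneI) (v' := Complex.basisOneI)
      (by rw [LinearMap.det_toMatrix]; exact hu)).toContinuousLinearEquiv
    exact e.toHomeomorph.measurableEmbedding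
  have h2 : ∫ w, g (M ζ w) = ∫ z, g z ∂(Measure.map (M ζ) volume) :=
    (hme.integral_map g).symm
  rw [h2, h, integral_smul_measure, det_M, abs_of_pos (inv_pos.2 h0),
    ENNReal.toReal_ofReal (inv_pos.2 h0).le, Complex.real_smul]
  push_cast
  rw [← mul_assoc, mul_inv_cancel₀ (by exact_mod_cast h0.ne'), one_mul]

lemma integral_T {ζ : ℂ} (h0 : 0 < ζ.im) {f : ℂ → ℂ} (hf : Continuous f) :
    ∫ z, (T ζ).indicator f z = (ζ.im : ℂ) *
      ∫ x in (0 : ℝ)..1, ∫ y in (0 : ℝ)..(1 - x), f ((x : ℂ) + y * ζ) := by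
  classical
  rw [integral_M h0]
  congr 1
  let g : ℝ × ℝ → ℂ := fun p => (T ζ).indicator f ((p.1 : ℂ) + p.2 * ζ)
  have h2 : ∫ w, (T ζ).indicator f (M ζ w) = ∫ p : ℝ × ℝ, g p := by
    have := Complex.volume_preserving_equiv_real_prod.integral_comp'
      (f := Complex.measurableEquivRealProd) g
    rw [← this]
    rfl
  rw [h2]
  have hgi : Integrable g := by
    have hcont : Continuous fun p : ℝ × ℝ => ((p.1 : ℂ) + p.2 * ζ) := by fun_prop
    have hS : MeasurableSet ((fun p : ℝ × ℝ => ((p.1 : ℂ) + p.2 * ζ)) ⁻¹' (T ζ)) :=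
      hcont.measurable (measurableSet_T ζ)
    have hg : g = ((fun p : ℝ × ℝ => ((p.1 : ℂ) + p.2 * ζ)) ⁻¹' (T ζ)).indicator
        (fun p => f ((p.1 : ℂ) + p.2 * ζ)) := by
      ext p
      simp only [g, Set.indicator, Set.mem_preimage]
    rw [hg, integrable_indicator_iff hS]
    refine ((hf.comp hcont).continuousOn.integrableOn_compact
      (isCompact_Icc (a := ((0 : ℝ), (0 : ℝ))) (b := ((1 : ℝ), (1 : ℝ))))).mono_set ?_
    rintro ⟨x, y⟩ hp
    simp only [Set.mem_preimage, T, Set.mem_ofPred_eq, X_pt h0, Y_pt h0] at hp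
    rw [Set.mem_Icc]
    exact ⟨⟨hp.1.le, hp.2.1⟩, ⟨by show x ≤ 1; linarith, by show y ≤ 1; linarith⟩⟩
  rw [Measure.volume_eq_prod] at hgi ⊢
  rw [integral_prod _ hgi]
  have hin : ∀ x : ℝ, ∫ y : ℝ, g (x, y) =
      (Set.Ioo (0 : ℝ) 1).indicator (fun x => ∫ y in (0 : ℝ)..(1 - x), f ((x : ℂ) + y * ζ)) x := by
    intro x
    by_cases hx : x ∈ Set.Ioo (0 : ℝ) 1
    · rw [Set.indicator_of_mem hx, intervalIntegral.integral_of_le (by linarith [hx.2]),
        integral_Ioc_eq_integral_Ioo, ← integral_Ico_eq_integral_Ioo,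
        ← integral_indicator measurableSet_Ico]
      congr 1
      ext y
      simp only [g, Set.indicator]
      have hiff : ((x : ℂ) + y * ζ ∈ T ζ) ↔ y ∈ Set.Ico (0 : ℝ) (1 - x) := by
        simp only [T, Set.mem_ofPred_eq, X_pt h0, Y_pt h0, Set.mem_Ico]
        constructor
        · rintro ⟨_, h4, h5⟩
          exact ⟨h4, by linarith⟩
        · rintro ⟨h4, h5⟩
          exact ⟨hx.1, h4, by linarith⟩
      by_cases hy : y ∈ Set.Ico (0 : ℝ) (1 - x)
      · rw [if_pos (hiff.2 hy), if_pos hy]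
      · rw [if_neg (fun h => hy (hiff.1 h)), if_neg hy]
    · rw [Set.indicator_of_notMem hx]
      have : ∀ y : ℝ, g (x, y) = 0 := by
        intro y
        simp only [g]
        rw [Set.indicator_of_notMem]
        rintro ⟨h3, h4, h5⟩
        rw [X_pt h0] at h3 h5
        rw [Y_pt h0] at h4 h5
        exact hx ⟨h3, by linarith⟩
      simp [this]
  simp_rw [hin]
  rw [integral_indicator measurableSet_Ioo, intervalIntegral.integral_of_le zero_le_one,
    integral_Ioc_eq_integral_Ioo]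

end Pool.Agent.H861R3.Berg
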