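import Mathlib
import Pool.Agent.H861R3.Berg.DecompA

set_option autoImplicit false

/-! # Task DECOMP of the project H250-BERG, part B (helper861) -/

open MeasureTheory Set
open scoped ComplexConjugate

namespace Pool.Agent.H861R3.Berg

open Pool.Agent.H250R3.Berg

theorem core {N : ℕ} {ζ : ℂ} (h0 : 0 < ζ.im) (h1 : ‖ζ‖ = 1)
    (hinv : ∀ z, ζ * z ∈ GN N ↔ z ∈ GN N)
    (hpart : ∀ z : ℂ, z ≠ 0 → ∃ i < N, (0 < X ζ (ζ ^ i * z) ∧ 0 ≤ Y ζ (ζ ^ i * z)) ∧
      ∀ j < N, (0 < X ζ (ζ ^ j * z) ∧ 0 ≤ Y ζ (ζ ^ j * z)) → j = i)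
    (hS : ∀ z, 0 < X ζ z → 0 ≤ Y ζ z → (z ∈ GN N ↔ X ζ z + Y ζ z < 1))
    {f : ℂ → ℂ} (hf : Continuous f) (hfi : ∀ z, f (ζ * z) = f z) :
    ∫ z in GN N, f z = (N * ζ.im : ℂ) *
      ∫ x in (0 : ℝ)..1, ∫ y in (0 : ℝ)..(1 - x), f ((x : ℂ) + y * ζ) := by
  classical
  have hpi : ∀ (i : ℕ) (z : ℂ), ζ ^ i * z ∈ GN N ↔ z ∈ GN N := by
    intro i z
    induction i with
    | zero => simp
    | succ i ih => rw [pow_succ', mul_assoc, hinv, ih]
  have hpf : ∀ (i : ℕ) (z : ℂ), f (ζ ^ i * z) = f z := by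
    intro i z
    induction i with
    | zero => simp
    | succ i ih => rw [pow_succ', mul_assoc, hfi, ih]
  have hn : ∀ i : ℕ, ‖ζ ^ i‖ = 1 := fun i => by rw [norm_pow, h1, one_pow]
  have hopen : MeasurableSet (GN N) := isOpen_interior.measurableSet
  rw [← integral_indicator hopen]
  have hae : (GN N).indicator f =ᵐ[volume]
      fun z => ∑ i ∈ Finset.range N, (T ζ).indicator f (ζ ^ i * z) := by
    have hz0 : ({0} : Set ℂ)ᶜ ∈ ae (volume : Measure ℂ) := by
      rw [compl_mem_ae_iff]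
      exact measure_singleton 0
    filter_upwards [hz0] with z hz
    obtain ⟨i, hi, ⟨hx, hy⟩, huniq⟩ := hpart z hz
    rw [Finset.sum_eq_single i]
    · by_cases hzG : z ∈ GN N
      · rw [Set.indicator_of_mem hzG, Set.indicator_of_mem, hpf]
        exact ⟨hx, hy, (hS _ hx hy).1 ((hpi i z).2 hzG)⟩
      · rw [Set.indicator_of_notMem hzG, Set.indicator_of_notMem]
        rintro ⟨h2, h3, h4⟩
        exact hzG ((hpi i z).1 ((hS _ hx hy).2 h4))
    · intro j hj hji
      rw [Set.indicator_of_notMem]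
      rintro ⟨h2, h3, h4⟩
      exact hji (huniq j (Finset.mem_range.1 hj) ⟨h2, h3⟩)
    · intro h
      exact absurd (Finset.mem_range.2 hi) h
  rw [integral_congr_ae hae, integral_finsetSum]
  · have h2 : ∀ i ∈ Finset.range N, ∫ z, (T ζ).indicator f (ζ ^ i * z) =
        ∫ z, (T ζ).indicator f z := fun i _ =>
      (mp_mul (hn i)).1.integral_comp (mp_mul (hn i)).2 _
    rw [Finset.sum_congr rfl h2, Finset.sum_const, Finset.card_range, integral_T h0 hf,
      nsmul_eq_mul, mul_assoc]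
  · intro i _
    exact ((mp_mul (hn i)).1.integrable_comp_emb (mp_mul (hn i)).2).2 (integrable_ind h0 h1 hf)

/-- the interior of the unit ball of a gauge -/
lemma interior_gauge (H : ℂ → ℝ) (hc : Continuous H) (hh : ∀ (t : ℝ) (z : ℂ), 0 ≤ t →
    H ((t : ℂ) * z) = t * H z) : interior {z | H z ≤ 1} = {z | H z < 1} := by
  apply Set.Subset.antisymm
  · intro z hz
    have hcont : Continuous fun t : ℝ => (t : ℂ) * z := by fun_prop
    have hnb : (fun t : ℝ => (t : ℂ) * z) ⁻¹' (interior {z | H z ≤ 1}) ∈ nhds (1 : ℝ) := by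
      apply hcont.continuousAt.preimage_mem_nhds
      apply isOpen_interior.mem_nhds
      simpa using hz
    obtain ⟨ε, hε, hball⟩ := Metric.mem_nhds_iff.1 hnb
    have hmem : (1 + ε / 2 : ℝ) ∈ Metric.ball (1 : ℝ) ε := by
      rw [Metric.mem_ball, Real.dist_eq]
      rw [show (1 + ε / 2 - 1 : ℝ) = ε / 2 by ring, abs_of_pos (by linarith)]
      linarith
    have h2' : ((1 + ε / 2 : ℝ) : ℂ) * z ∈ {z | H z ≤ 1} := interior_subset (hball hmem)
    have h2 : H (((1 + ε / 2 : ℝ) : ℂ) * z) ≤ 1 := h2'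
    rw [hh _ _ (by linarith)] at h2
    show H z < 1
    by_contra hcon
    push Not at hcon
    nlinarith
  · apply interior_maximal
    · intro z hz
      have hz' : H z < 1 := hz
      show H z ≤ 1
      exact hz'.le
    · exact isOpen_lt hc continuous_const

section Three

/-- `exp(2πi/3)` -/
noncomputable def z3 : ℂ := ⟨-1 / 2, √3 / 2⟩

lemma z3_im : 0 < z3.im := by
  show 0 < √3 / 2
  positivity

lemma z3_sq : z3 * z3 = -1 - z3 := by
  have h : √3 * √3 = 3 := Real.mul_self_sqrt (by norm_num)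
  apply Complex.ext
  · simp only [z3, Complex.mul_re, Complex.sub_re, Complex.neg_re, Complex.one_re]
    nlinarith
  · simp only [z3, Complex.mul_im, Complex.sub_im, Complex.neg_im, Complex.one_im]
    ring

lemma z3_norm : ‖z3‖ = 1 := by
  have h3 : z3 ^ 3 = 1 := by
    have : z3 ^ 3 = z3 * (z3 * z3) := by ring
    rw [this, z3_sq, mul_sub, z3_sq]
    ring
  have h4 : ‖z3‖ ^ 3 = 1 := by rw [← norm_pow, h3, norm_one]
  exact (pow_eq_one_iff_of_nonneg (norm_nonneg _) (by norm_num)).1 h4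

lemma z3_mul (x y : ℝ) : z3 * ((x : ℂ) + y * z3) = ((-y : ℝ) : ℂ) + ((x - y : ℝ) : ℂ) * z3 := by
  have : z3 * ((x : ℂ) + y * z3) = x * z3 + y * (z3 * z3) := by ring
  rw [this, z3_sq]
  push_cast
  ring

lemma X3 (z : ℂ) : X z3 (z3 * z) = - Y z3 z := by
  conv_lhs => rw [pt_eq z3_im z, z3_mul, X_pt z3_im]

lemma Y3 (z : ℂ) : Y z3 (z3 * z) = X z3 z - Y z3 z := by
  conv_lhs => rw [pt_eq z3_im z, z3_mul, Y_pt z3_im]

/-- gauge -/
noncomputable def H3 (z : ℂ) : ℝ :=
  max (X z3 z + Y z3 z) (max (-2 * X z3 z + Y z3 z) (X z3 z - 2 * Y z3 z))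

lemma X_smul (ζ : ℂ) (t : ℝ) (z : ℂ) : X ζ ((t : ℂ) * z) = t * X ζ z := by
  simp only [X, Y, Complex.mul_re, Complex.mul_im, Complex.ofReal_re, Complex.ofReal_im]
  ring

lemma Y_smul (ζ : ℂ) (t : ℝ) (z : ℂ) : Y ζ ((t : ℂ) * z) = t * Y ζ z := by
  simp only [Y, Complex.mul_im, Complex.ofReal_re, Complex.ofReal_im]
  ring

lemma X_add (ζ z w : ℂ) : X ζ (z + w) = X ζ z + X ζ w := by
  simp only [X, Y, Complex.add_re, Complex.add_im]
  ring

lemma Y_add (ζ z w : ℂ) : Y ζ (z + w) = Y ζ z + Y ζ w := by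
  simp only [Y, Complex.add_im]
  ring

lemma H3_lt (z : ℂ) : H3 z < 1 ↔ X z3 z + Y z3 z < 1 ∧ -2 * X z3 z + Y z3 z < 1 ∧
    X z3 z - 2 * Y z3 z < 1 := by
  rw [H3, max_lt_iff, max_lt_iff]

lemma H3_le (z : ℂ) : H3 z ≤ 1 ↔ X z3 z + Y z3 z ≤ 1 ∧ -2 * X z3 z + Y z3 z ≤ 1 ∧
    X z3 z - 2 * Y z3 z ≤ 1 := by
  rw [H3, max_le_iff, max_le_iff]

lemma H3_cont : Continuous H3 := by
  have h1 := continuous_X z3
  have h2 := continuous_Y z3
  unfold H3
  fun_prop

lemma H3_hom (t : ℝ) (z : ℂ) (ht : 0 ≤ t) : H3 ((t : ℂ) * z) = t * H3 z := by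
  unfold H3
  rw [X_smul, Y_smul, mul_max_of_nonneg _ _ ht, mul_max_of_nonneg _ _ ht]
  congr 1
  · ring
  · congr 1 <;> ring

lemma hull3 : convexHull ℝ {w : ℂ | w ^ 3 = 1} = {z | H3 z ≤ 1} := by
  have hX1 : X z3 1 = 1 := by
    have := X_pt z3_im 1 0
    simpa using this
  have hY1 : Y z3 1 = 0 := by
    have := Y_pt z3_im 1 0
    simpa using this
  have hXz : X z3 z3 = 0 := by
    have := X_pt z3_im 0 1
    simpa using this
  have hYz : Y z3 z3 = 1 := by
    have := Y_pt z3_im 0 1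
    simpa using this
  have hXz2 : X z3 (z3 * z3) = -1 := by rw [X3, hYz]
  have hYz2 : Y z3 (z3 * z3) = -1 := by rw [Y3, hXz, hYz]; ring
  apply Set.Subset.antisymm
  · apply convexHull_min
    · intro w hw
      have hw3 : w ^ 3 = 1 := hw
      have hfac : (w - 1) * ((w - z3) * (w - z3 * z3)) = 0 := by
        have h2 := z3_sq
        have h3 : z3 * z3 * z3 = 1 := by rw [z3_sq, sub_mul, z3_sq]; ring
        have : (w - 1) * ((w - z3) * (w - z3 * z3)) = w ^ 3 - (1 + z3 + z3 * z3) * w ^ 2 +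
          (z3 + z3 * z3 + z3 * z3 * z3) * w - z3 * z3 * z3 := by ring
        rw [this, h3, h2, hw3]
        ring
      show H3 w ≤ 1
      rw [H3_le]
      rcases mul_eq_zero.1 hfac with h | h
      · rw [sub_eq_zero.1 h, hX1, hY1]; norm_num
      · rcases mul_eq_zero.1 h with h | h
        · rw [sub_eq_zero.1 h, hXz, hYz]; norm_num
        · rw [sub_eq_zero.1 h, hXz2, hYz2]; norm_num
    · intro z hz w hw a b ha hb hab
      have hz' : H3 z ≤ 1 := hz
      have hw' : H3 w ≤ 1 := hw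
      show H3 (a • z + b • w) ≤ 1
      rw [H3_le] at hz' hw' ⊢
      have e1 : a • z = (a : ℂ) * z := Complex.real_smul
      have e2 : b • w = (b : ℂ) * w := Complex.real_smul
      rw [e1, e2, X_add, Y_add, X_smul, X_smul, Y_smul, Y_smul]
      obtain ⟨p1, p2, p3⟩ := hz'
      obtain ⟨q1, q2, q3⟩ := hw'
      refine ⟨?_, ?_, ?_⟩ <;> nlinarith
  · intro z hz
    have hz' : H3 z ≤ 1 := hz
    rw [H3_le] at hz'
    obtain ⟨p1, p2, p3⟩ := hz'
    have m1 : (1 : ℂ) ∈ convexHull ℝ {w : ℂ | w ^ 3 = 1} :=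
      subset_convexHull _ _ (by show (1 : ℂ) ^ 3 = 1; norm_num)
    have h3 : z3 ^ 3 = 1 := by
      have : z3 ^ 3 = z3 * (z3 * z3) := by ring
      rw [this, z3_sq, mul_sub, z3_sq]
      ring
    have m2 : z3 ∈ convexHull ℝ {w : ℂ | w ^ 3 = 1} := subset_convexHull _ _ h3
    have m3 : z3 * z3 ∈ convexHull ℝ {w : ℂ | w ^ 3 = 1} :=
      subset_convexHull _ _ (by
        show (z3 * z3) ^ 3 = 1
        rw [mul_pow, h3, one_mul])
    have key := (convex_convexHull ℝ {w : ℂ | w ^ 3 = 1}).sum_mem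
      (t := (Finset.univ : Finset (Fin 3)))
      (w := ![(1 + 2 * X z3 z - Y z3 z) / 3, (1 - X z3 z + 2 * Y z3 z) / 3,
        (1 - X z3 z - Y z3 z) / 3]) (z := ![(1 : ℂ), z3, z3 * z3])
      (by intro i _; fin_cases i <;> simp <;> linarith)
      (by simp [Fin.sum_univ_three]; ring)
      (by intro i _; fin_cases i
          · exact m1
          · exact m2
          · exact m3)
    have e : z = ∑ i : Fin 3, (![(1 + 2 * X z3 z - Y z3 z) / 3, (1 - X z3 z + 2 * Y z3 z) / 3,
        (1 - X z3 z - Y z3 z) / 3] i) • (![(1 : ℂ), z3, z3 * z3] i) := by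
      rw [Fin.sum_univ_three]
      simp only [Matrix.cons_val_zero, Matrix.cons_val_one, Matrix.cons_val, Complex.real_smul]
      rw [z3_sq]
      conv_lhs => rw [pt_eq z3_im z]
      push_cast
      ring
    rw [e]
    exact key

lemma GN3 : GN 3 = {z | H3 z < 1} := by
  rw [GN, hull3, interior_gauge H3 H3_cont H3_hom]

theorem three {f : ℂ → ℂ} (hf : Continuous f) (hfi : ∀ z, f (z3 * z) = f z) :
    ∫ z in GN 3, f z = ((3 : ℕ) * z3.im : ℂ) *
      ∫ x in (0 : ℝ)..1, ∫ y in (0 : ℝ)..(1 - x), f ((x : ℂ) + y * z3) := by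
  refine core z3_im z3_norm ?_ ?_ ?_ hf hfi
  · intro z
    rw [GN3]
    show H3 (z3 * z) < 1 ↔ H3 z < 1
    rw [H3_lt, H3_lt, X3, Y3]
    constructor
    · rintro ⟨h1, h2, h3⟩
      refine ⟨by linarith, by linarith, by linarith⟩
    · rintro ⟨h1, h2, h3⟩
      refine ⟨by linarith, by linarith, by linarith⟩
  · intro z hz
    have p0 : z3 ^ 0 * z = z := by ring
    have p1 : z3 ^ 1 * z = z3 * z := by ring
    have p2 : z3 ^ 2 * z = z3 * (z3 * z) := by ring
    by_cases h1 : 0 < X z3 z ∧ 0 ≤ Y z3 z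
    · refine ⟨0, by norm_num, by rw [p0]; exact h1, ?_⟩
      intro j hj h
      interval_cases j
      · rfl
      · rw [p1, X3, Y3] at h
        exfalso; linarith [h.1, h1.2]
      · rw [p2, X3, Y3 (z3 * z), X3, Y3] at h
        exfalso; linarith [h.2, h1.1]
    · by_cases h2 : Y z3 z < 0 ∧ Y z3 z ≤ X z3 z
      · refine ⟨1, by norm_num, by rw [p1, X3, Y3]; constructor <;> linarith [h2.1, h2.2], ?_⟩
        intro j hj h
        interval_cases j
        · rw [p0] at h
          exfalso; linarith [h.2, h2.1]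
        · rfl
        · rw [p2, X3, Y3 (z3 * z), X3, Y3] at h
          exfalso; linarith [h.1, h2.2]
      · have h3 : X z3 z ≤ 0 ∧ X z3 z < Y z3 z := by
          by_cases hx : 0 < X z3 z
          · exfalso
            have hy : Y z3 z < 0 := by
              by_contra hcon
              exact h1 ⟨hx, not_lt.1 hcon⟩
            exact h2 ⟨hy, by linarith⟩
          · push Not at hx
            refine ⟨hx, ?_⟩
            by_contra hcon
            push Not at hcon
            by_cases hy : Y z3 z < 0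
            · exact h2 ⟨hy, hcon⟩
            · push Not at hy
              have e1 : X z3 z = 0 := by linarith
              have e2 : Y z3 z = 0 := by linarith
              apply hz
              rw [pt_eq z3_im z, e1, e2]
              simp
        refine ⟨2, by norm_num, by
          rw [p2, X3, Y3 (z3 * z), X3, Y3]; constructor <;> linarith [h3.1, h3.2], ?_⟩
        intro j hj h
        interval_cases j
        · rw [p0] at h
          exfalso; linarith [h.1, h3.1]
        · rw [p1, X3, Y3] at h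
          exfalso; linarith [h.2, h3.2]
        · rfl
  · intro z hx hy
    rw [GN3]
    show H3 z < 1 ↔ _
    rw [H3_lt]
    constructor
    · exact fun h => h.1
    · intro h
      exact ⟨h, by linarith, by linarith⟩

end Three

section Four

lemma X4 (z : ℂ) : X Complex.I z = z.re := by simp [X]

lemma Y4 (z : ℂ) : Y Complex.I z = z.im := by simp [Y]

/-- gauge -/
noncomputable def H4 (z : ℂ) : ℝ := |z.re| + |z.im|

lemma H4_cont : Continuous H4 := by
  unfold H4
  fun_prop

lemma H4_hom (t : ℝ) (z : ℂ) (ht : 0 ≤ t) : H4 ((t : ℂ) * z) = t * H4 z := by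
  simp only [H4, Complex.mul_re, Complex.mul_im, Complex.ofReal_re, Complex.ofReal_im, zero_mul,
    sub_zero, add_zero, abs_mul, abs_of_nonneg ht]
  ring

lemma hull4 : convexHull ℝ {w : ℂ | w ^ 4 = 1} = {z | H4 z ≤ 1} := by
  apply Set.Subset.antisymm
  · apply convexHull_min
    · intro w hw
      have hw4 : w ^ 4 = 1 := hw
      have hfac : ((w - 1) * (w + 1)) * ((w - Complex.I) * (w + Complex.I)) = 0 := by
        have : ((w - 1) * (w + 1)) * ((w - Complex.I) * (w + Complex.I)) =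
          w ^ 4 - w ^ 2 - Complex.I ^ 2 * w ^ 2 + Complex.I ^ 2 := by ring
        rw [this, hw4, Complex.I_sq]
        ring
      show H4 w ≤ 1
      rcases mul_eq_zero.1 hfac with h | h
      · rcases mul_eq_zero.1 h with h | h
        · rw [sub_eq_zero.1 h]; simp [H4]
        · rw [eq_neg_of_add_eq_zero_left h]; simp [H4]
      · rcases mul_eq_zero.1 h with h | h
        · rw [sub_eq_zero.1 h]; simp [H4]
        · rw [eq_neg_of_add_eq_zero_left h]; simp [H4]
    · intro z hz w hw a b ha hb hab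
      have hz' : |z.re| + |z.im| ≤ 1 := hz
      have hw' : |w.re| + |w.im| ≤ 1 := hw
      show |(a • z + b • w).re| + |(a • z + b • w).im| ≤ 1
      have e1 : (a • z + b • w).re = a * z.re + b * w.re := by simp
      have e2 : (a • z + b • w).im = a * z.im + b * w.im := by simp
      rw [e1, e2]
      have t1 := abs_add_le (a * z.re) (b * w.re)
      have t2 := abs_add_le (a * z.im) (b * w.im)
      rw [abs_mul, abs_mul, abs_of_nonneg ha, abs_of_nonneg hb] at t1 t2
      nlinarith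
  · intro z hz
    have hz' : |z.re| + |z.im| ≤ 1 := hz
    have m1 : (1 : ℂ) ∈ convexHull ℝ {w : ℂ | w ^ 4 = 1} :=
      subset_convexHull _ _ (by show (1 : ℂ) ^ 4 = 1; norm_num)
    have m2 : Complex.I ∈ convexHull ℝ {w : ℂ | w ^ 4 = 1} :=
      subset_convexHull _ _ Complex.I_pow_four
    have m3 : (-1 : ℂ) ∈ convexHull ℝ {w : ℂ | w ^ 4 = 1} :=
      subset_convexHull _ _ (by show (-1 : ℂ) ^ 4 = 1; norm_num)
    have m4 : -Complex.I ∈ convexHull ℝ {w : ℂ | w ^ 4 = 1} :=
      subset_convexHull _ _ (by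
        show (-Complex.I) ^ 4 = 1
        rw [neg_pow, Complex.I_pow_four]; norm_num)
    have key := (convex_convexHull ℝ {w : ℂ | w ^ 4 = 1}).sum_mem
      (t := (Finset.univ : Finset (Fin 4)))
      (w := ![(1 - |z.re| - |z.im|) / 4 + (|z.re| + z.re) / 2,
        (1 - |z.re| - |z.im|) / 4 + (|z.im| + z.im) / 2,
        (1 - |z.re| - |z.im|) / 4 + (|z.re| - z.re) / 2,
        (1 - |z.re| - |z.im|) / 4 + (|z.im| - z.im) / 2])
      (z := ![(1 : ℂ), Complex.I, -1, -Complex.I])
      (by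
        have a1 := neg_abs_le z.re
        have a2 := le_abs_self z.re
        have a3 := neg_abs_le z.im
        have a4 := le_abs_self z.im
        intro i _; fin_cases i <;> simp <;> linarith)
      (by simp [Fin.sum_univ_four]; ring)
      (by intro i _; fin_cases i
          · exact m1
          · exact m2
          · exact m3
          · exact m4)
    have e : z = ∑ i : Fin 4, (![(1 - |z.re| - |z.im|) / 4 + (|z.re| + z.re) / 2,
        (1 - |z.re| - |z.im|) / 4 + (|z.im| + z.im) / 2,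
        (1 - |z.re| - |z.im|) / 4 + (|z.re| - z.re) / 2,
        (1 - |z.re| - |z.im|) / 4 + (|z.im| - z.im) / 2] i) •
          (![(1 : ℂ), Complex.I, -1, -Complex.I] i) := by
      rw [Fin.sum_univ_four]
      apply Complex.ext
      · simp
        ring
      · simp
        ring
    rw [e]
    exact key

lemma GN4 : GN 4 = {z | H4 z < 1} := by
  rw [GN, hull4, interior_gauge H4 H4_cont H4_hom]

theorem four {f : ℂ → ℂ} (hf : Continuous f) (hfi : ∀ z, f (Complex.I * z) = f z) :
    ∫ z in GN 4, f z = ((4 : ℕ) * Complex.I.im : ℂ) *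
      ∫ x in (0 : ℝ)..1, ∫ y in (0 : ℝ)..(1 - x), f ((x : ℂ) + y * Complex.I) := by
  refine core (by simp) (by simp) ?_ ?_ ?_ hf hfi
  · intro z
    rw [GN4]
    show H4 (Complex.I * z) < 1 ↔ H4 z < 1
    simp only [H4, Complex.mul_re, Complex.mul_im, Complex.I_re, Complex.I_im, zero_mul, one_mul,
      zero_sub, zero_add, abs_neg]
    rw [add_comm]
  · intro z hz
    have p0 : Complex.I ^ 0 * z = z := by ring
    have p1 : Complex.I ^ 1 * z = Complex.I * z := by ring
    have p2 : Complex.I ^ 2 * z = -z := by rw [Complex.I_sq]; ring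
    have p3 : Complex.I ^ 3 * z = - (Complex.I * z) := by
      have : Complex.I ^ 3 = - Complex.I := by rw [pow_succ, Complex.I_sq]; ring
      rw [this]; ring
    simp only [X4, Y4]
    have r1 : (Complex.I * z).re = - z.im := by simp
    have r2 : (Complex.I * z).im = z.re := by simp
    have c0 : ∀ j < 4, (0 < (Complex.I ^ j * z).re ∧ 0 ≤ (Complex.I ^ j * z).im) →
        (j = 0 ∧ 0 < z.re ∧ 0 ≤ z.im) ∨ (j = 1 ∧ z.im < 0 ∧ 0 ≤ z.re) ∨
        (j = 2 ∧ z.re < 0 ∧ z.im ≤ 0) ∨ (j = 3 ∧ 0 < z.im ∧ z.re ≤ 0) := by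
      intro j hj h
      interval_cases j
      · rw [p0] at h
        exact Or.inl ⟨rfl, h.1, h.2⟩
      · rw [p1, r1, r2] at h
        exact Or.inr (Or.inl ⟨rfl, by linarith [h.1], h.2⟩)
      · rw [p2, Complex.neg_re, Complex.neg_im] at h
        exact Or.inr (Or.inr (Or.inl ⟨rfl, by linarith [h.1], by linarith [h.2]⟩))
      · rw [p3, Complex.neg_re, Complex.neg_im, r1, r2] at h
        exact Or.inr (Or.inr (Or.inr ⟨rfl, by linarith [h.1], by linarith [h.2]⟩))
    by_cases h1 : 0 < z.re ∧ 0 ≤ z.im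
    · refine ⟨0, by norm_num, by rw [p0]; exact h1, ?_⟩
      intro j hj h
      rcases c0 j hj h with h | h | h | h
      · exact h.1
      · exfalso; linarith [h.2.1, h1.2]
      · exfalso; linarith [h.2.1, h1.1]
      · exfalso; linarith [h.2.2, h1.1]
    by_cases h2 : z.im < 0 ∧ 0 ≤ z.re
    · refine ⟨1, by norm_num, by rw [p1, r1, r2]; constructor <;> linarith [h2.1, h2.2], ?_⟩
      intro j hj h
      rcases c0 j hj h with h | h | h | h
      · exfalso; linarith [h.2.2, h2.1]
      · exact h.1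
      · exfalso; linarith [h.2.1, h2.2]
      · exfalso; linarith [h.2.1, h2.1]
    by_cases h3 : z.re < 0 ∧ z.im ≤ 0
    · refine ⟨2, by norm_num, by
        rw [p2, Complex.neg_re, Complex.neg_im]; constructor <;> linarith [h3.1, h3.2], ?_⟩
      intro j hj h
      rcases c0 j hj h with h | h | h | h
      · exfalso; linarith [h.2.1, h3.1]
      · exfalso; linarith [h.2.2, h3.1]
      · exact h.1
      · exfalso; linarith [h.2.1, h3.2]
    · have h4 : 0 < z.im ∧ z.re ≤ 0 := by
        by_cases hy : 0 < z.im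
        · refine ⟨hy, ?_⟩
          by_contra hcon
          push Not at hcon
          exact h1 ⟨hcon, hy.le⟩
        · exfalso
          push Not at hy
          by_cases hx : z.re < 0
          · exact h3 ⟨hx, hy⟩
          · push Not at hx
            rcases hy.lt_or_eq with h | h
            · exact h2 ⟨h, hx⟩
            · rcases hx.lt_or_eq with h' | h'
              · exact h1 ⟨h', h.ge⟩
              · exact hz (Complex.ext h'.symm h)
      refine ⟨3, by norm_num, by
        rw [p3, Complex.neg_re, Complex.neg_im, r1, r2]; constructor <;> linarith [h4.1, h4.2], ?_⟩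
      intro j hj h
      rcases c0 j hj h with h | h | h | h
      · exfalso; linarith [h.2.1, h4.2]
      · exfalso; linarith [h.2.1, h4.1]
      · exfalso; linarith [h.2.2, h4.1]
      · exact h.1
  · intro z hx hy
    rw [GN4]
    rw [X4] at hx ⊢
    rw [Y4] at hy ⊢
    show |z.re| + |z.im| < 1 ↔ _
    rw [abs_of_pos hx, abs_of_nonneg hy]

end Four

theorem taskDecomp : TaskDecomp := by
  rintro N ζ (⟨rfl, rfl⟩ | ⟨rfl, rfl⟩) f hf hfi
  · exact three hf hfi
  · exact four hf hfi

end Pool.Agent.H861R3.Berg
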